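import Pool.Agent.H2.EA.Stm

/-! # EA crew: part DAT -/

set_option autoImplicit false

open Finset Module

namespace H9.EA
open H2.EA

/-- data from an injective map onto a normal subgroup containing all commutators -/
theorem exists_dat (p : ℕ) [Fact p.Prime] (G B : Type) [Group G] [AddCommGroup B]
    [Module (ZMod p) B] (ι : B → G) (h1 : ∀ a b, ι (a + b) = ι a * ι b)
    (h2 : Function.Injective ι) (h3 : ∀ g b, ∃ b', ι b' = g * ι b * g⁻¹)
    (h4 : ∀ g h, ∃ b, ι b = g * h * g⁻¹ * h⁻¹) : ∃ D : Dat p G B, D.ι = ι := by
  choose f hf using h3
  choose c hc using h4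
  let actm (g : G) : B →+ B := AddMonoidHom.mk' (f g) (by
    intro a b
    apply h2
    rw [hf, h1, h1, hf, hf]
    group)
  have hactm : ∀ g b, ι (actm g b) = g * ι b * g⁻¹ := fun g b => hf g b
  let act : G →* Module.End (ZMod p) B :=
    { toFun := fun g => (actm g).toZModLinearMap p
      map_one' := by
        refine LinearMap.ext fun x => ?_
        apply h2
        rw [AddMonoidHom.coe_toZModLinearMap, hactm, Module.End.one_apply]
        group
      map_mul' := by
        intro g h
        refine LinearMap.ext fun x => ?_
        apply h2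
        rw [Module.End.mul_apply, AddMonoidHom.coe_toZModLinearMap,
          AddMonoidHom.coe_toZModLinearMap, AddMonoidHom.coe_toZModLinearMap, hactm, hactm, hactm]
        group }
  exact ⟨{ act := act
           ι := ι
           ι_add := h1
           ι_inj := h2
           ι_act := fun g a => hactm g a
           c := c
           ι_c := hc }, rfl⟩

theorem t_DAT : S_DAT := by
  intro p hp G _ _ hexp hcomm
  let iC : CommGroup (commutator G) :=
    { (inferInstance : Group (commutator G)) with
      mul_comm := fun x y => Subtype.ext (hcomm x x.2 y y.2) }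
  let iA : AddCommGroup (Additive (commutator G)) := @Additive.addCommGroup _ iC
  have htors : ∀ x : Additive (commutator G), p • x = 0 := by
    intro x
    apply Additive.toMul.injective
    apply Subtype.ext
    exact hexp _ (Additive.toMul x).2
  let iM : @Module (ZMod p) (Additive (commutator G)) _ iA.toAddCommMonoid :=
    @AddCommGroup.zmodModule p (Additive (commutator G)) iA htors
  obtain ⟨D, hD⟩ := @exists_dat p hp G (Additive (commutator G)) _ iA iM
    (fun x => ((Additive.toMul x : commutator G) : G)) (fun a b => rfl)
    (fun a b h => Additive.toMul.injective (Subtype.ext h))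
    (fun g b => ⟨Additive.ofMul ⟨g * ((Additive.toMul b : commutator G) : G) * g⁻¹,
      (inferInstance : (commutator G).Normal).conj_mem _ (Additive.toMul b).2 g⟩, rfl⟩)
    (fun g h => ⟨Additive.ofMul ⟨g * h * g⁻¹ * h⁻¹, by
        rw [← commutatorElement_def]
        exact Subgroup.commutator_mem_commutator (Subgroup.mem_top g) (Subgroup.mem_top h)⟩, rfl⟩)
  refine ⟨Additive (commutator G), iA, iM, D, ?_⟩
  rw [hD]
  ext x
  constructor
  · rintro ⟨y, rfl⟩
    exact (Additive.toMul y).2
  · intro hx
    exact ⟨Additive.ofMul ⟨x, hx⟩, rfl⟩

end H9.EA
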