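import Pool.Agent.H2.EA.Stm

/-! # EA crew: part EXT (exchange) -/

set_option autoImplicit false

open Finset Module

namespace H9.EA
open H2.EA

section
variable {p : ℕ} [Fact p.Prime] {G A : Type} [Group G] [AddCommGroup A] [Module (ZMod p) A]
  (D : Dat p G A) {E : Type} [Field E] [Algebra (ZMod p) E]

/-- the column of `x`, as one vector -/
noncomputable def col (v : A →ₗ[ZMod p] E) {a : ℕ} (g : Fin a → G) (K : Subgroup G) (x : A) :
    (Fin a ⊕ K) → E :=
  Sum.elim (fun i => v (D.lg (g i) x)) (fun k => v (D.lg (k : G) x))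

theorem colInd_iff (v : A →ₗ[ZMod p] E) {a : ℕ} (g : Fin a → G) (K : Subgroup G) {m : ℕ}
    (φ : Fin m → A) :
    colInd D v g K φ ↔ LinearIndependent E (fun j => col D v g K (φ j)) := by
  rw [Fintype.linearIndependent_iff]
  constructor
  · intro h y hy j
    have h0 : y = 0 := by
      refine h y (fun i => ?_) (fun k hk => ?_)
      · have := congrFun hy (Sum.inl i)
        simpa [col, Finset.sum_apply] using this
      · have := congrFun hy (Sum.inr ⟨k, hk⟩)
        simpa [col, Finset.sum_apply] using this
    rw [h0]; rfl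
  · intro h y h1 h2
    funext j
    refine h y ?_ j
    funext i
    rcases i with i | k
    · simpa [col, Finset.sum_apply] using h1 i
    · simpa [col, Finset.sum_apply] using h2 k k.2

end

theorem ext_aux {E V X : Type} [Field E] [AddCommGroup V] [Module E V] (c : X → V)
    {m r : ℕ} (φ : Fin m → X) (ψ : Fin r → X) (hφ : LinearIndependent E (fun j => c (φ j)))
    (hψ : LinearIndependent E (fun j => c (ψ j))) (t : ℕ) (h : m ≤ t) (htr : t ≤ r) :
    ∃ θ : Fin t → X, (∀ j : Fin m, θ (Fin.castLE h j) = φ j) ∧
      (∀ j, θ j ∈ Set.range φ ∪ Set.range ψ) ∧ LinearIndependent E (fun j => c (θ j)) := by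
  induction t, h using Nat.le_induction with
  | base =>
    exact ⟨φ, fun j => rfl, fun j => Or.inl ⟨j, rfl⟩, hφ⟩
  | succ t hmt ih =>
    obtain ⟨θ, h1, h2, h3⟩ := ih (by omega)
    obtain ⟨j, hj⟩ : ∃ j, c (ψ j) ∉ Submodule.span E (Set.range (fun i => c (θ i))) := by
      by_contra hcon
      push Not at hcon
      have hle : Submodule.span E (Set.range (fun j => c (ψ j))) ≤
          Submodule.span E (Set.range (fun i => c (θ i))) := by
        rw [Submodule.span_le]
        rintro _ ⟨j, rfl⟩
        exact hcon j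
      have hfd : FiniteDimensional E (Submodule.span E (Set.range (fun i => c (θ i)))) :=
        FiniteDimensional.span_of_finite E (Set.finite_range _)
      have h5 := Submodule.finrank_mono hle
      rw [finrank_span_eq_card hψ, finrank_span_eq_card h3] at h5
      simp only [Fintype.card_fin] at h5
      omega
    refine ⟨Fin.snoc θ (ψ j), ?_, ?_, ?_⟩
    · intro i
      have : Fin.castLE (Nat.le_succ_of_le hmt) i = Fin.castSucc (Fin.castLE hmt i) := by
        ext; rfl
      rw [show (Fin.castLE (by omega : m ≤ t + 1) i) = Fin.castSucc (Fin.castLE hmt i) from by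
        ext; rfl, Fin.snoc_castSucc]
      exact h1 i
    · intro i
      refine Fin.lastCases ?_ (fun i => ?_) i
      · rw [Fin.snoc_last]; exact Or.inr ⟨j, rfl⟩
      · rw [Fin.snoc_castSucc]; exact h2 i
    · have h6 : (fun i : Fin (t + 1) => c ((Fin.snoc θ (ψ j) : Fin (t + 1) → X) i)) =
          Fin.snoc (fun i => c (θ i)) (c (ψ j)) := by
        funext i
        refine Fin.lastCases ?_ (fun i => ?_) i
        · simp
        · simp
      rw [h6, linearIndependent_finSnoc]
      exact ⟨h3, hj⟩

theorem t_EXT : S_EXT := by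
  intro p _ G A _ _ _ D E _ _ v a g K m r t φ ψ hφ hψ h htr
  rw [colInd_iff] at hφ hψ
  obtain ⟨θ, h1, h2, h3⟩ := ext_aux (col D v g K) φ ψ hφ hψ t h htr
  exact ⟨θ, h1, h2, (colInd_iff D v g K θ).2 h3⟩

end H9.EA
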