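import Pool.Agent.H2.EA.Stm

/-! # EA crew: parts RX and RY -/

set_option autoImplicit false

open Finset Module

namespace H9.EA
open H2.EA

/-- the values of a non-trivial character in the dual sum to zero -/
theorem sum_dual {p : ℕ} [Fact p.Prime] {A : Type} [AddCommGroup A] [Module (ZMod p) A]
    [Fintype (A →ₗ[ZMod p] ZMod p)] (a : A) (ha : a ≠ 0) :
    ∑ v : A →ₗ[ZMod p] ZMod p, (ZMod.stdAddChar (N := p) (v a) : ℂ) = 0 := by
  obtain ⟨v0, hv0⟩ : ∃ v0 : A →ₗ[ZMod p] ZMod p, v0 a ≠ 0 := by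
    by_contra hcon
    push Not at hcon
    exact ha ((Module.forall_dual_apply_eq_zero_iff (ZMod p) a).1 hcon)
  have h1 : ∑ v : A →ₗ[ZMod p] ZMod p, (ZMod.stdAddChar (N := p) (v a) : ℂ) =
      ZMod.stdAddChar (N := p) (v0 a) * ∑ v : A →ₗ[ZMod p] ZMod p, (ZMod.stdAddChar (N := p) (v a) : ℂ) := by
    rw [Finset.mul_sum]
    conv_lhs => rw [← Equiv.sum_comp (Equiv.addLeft v0)]
    refine Finset.sum_congr rfl fun v _ => ?_
    rw [Equiv.coe_addLeft, LinearMap.add_apply, AddChar.map_add_eq_mul]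
  have h2 : (ZMod.stdAddChar (N := p) (v0 a) : ℂ) ≠ 1 := by
    intro h
    apply hv0
    apply ZMod.injective_stdAddChar
    rw [h, AddChar.map_zero_eq_one]
  have h3 : (1 - ZMod.stdAddChar (N := p) (v0 a)) *
      ∑ v : A →ₗ[ZMod p] ZMod p, (ZMod.stdAddChar (N := p) (v a) : ℂ) = 0 := by
    rw [sub_mul, one_mul, ← h1, sub_self]
  rcases mul_eq_zero.1 h3 with h | h
  · exact absurd (sub_eq_zero.1 h).symm h2
  · exact h

section
variable {p : ℕ} [Fact p.Prime] {G A : Type} [Group G] [AddCommGroup A] [Module (ZMod p) A]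
  (D : Dat p G A) {V : Type} [AddCommGroup V] [Module ℂ V] (ρ : Representation ℂ G V)

/-- the (unnormalised) projector on `eig D ρ v` -/
noncomputable def proj [Fintype A] (v : A →ₗ[ZMod p] ZMod p) (w : V) : V :=
  ∑ a : A, (ZMod.stdAddChar (N := p) (-(v a)) : ℂ) • ρ (D.ι a) w

theorem proj_mem [Fintype A] (v : A →ₗ[ZMod p] ZMod p) (w : V) : proj D ρ v w ∈ eig D ρ v := by
  intro b
  unfold proj
  rw [map_sum, Finset.smul_sum]
  conv_rhs => rw [← Equiv.sum_comp (Equiv.addLeft b)]
  refine Finset.sum_congr rfl fun a _ => ?_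
  rw [map_smul, Equiv.coe_addLeft, ← Module.End.mul_apply, ← map_mul, ← D.ι_add, smul_smul,
    map_add, neg_add, AddChar.map_add_eq_mul, ← mul_assoc, ← AddChar.map_add_eq_mul,
    add_neg_cancel, AddChar.map_zero_eq_one, one_mul]

theorem exists_eig [Finite A] [Nontrivial V] : ∃ v : A →ₗ[ZMod p] ZMod p, eig D ρ v ≠ ⊥ := by
  classical
  let _ : Fintype A := Fintype.ofFinite A
  have hfin : Finite (A →ₗ[ZMod p] ZMod p) :=
    Finite.of_injective (fun f : A →ₗ[ZMod p] ZMod p => (f : A → ZMod p)) DFunLike.coe_injective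
  let _ : Fintype (A →ₗ[ZMod p] ZMod p) := Fintype.ofFinite _
  by_contra hcon
  push Not at hcon
  obtain ⟨w, hw⟩ := exists_ne (0 : V)
  have h1 : ∀ v : A →ₗ[ZMod p] ZMod p, proj D ρ v w = 0 := by
    intro v
    have := proj_mem D ρ v w
    rw [hcon v] at this
    simpa using this
  have h2 : ∑ v : A →ₗ[ZMod p] ZMod p, proj D ρ v w = 0 := Finset.sum_eq_zero fun v _ => h1 v
  unfold proj at h2
  rw [Finset.sum_comm] at h2
  simp only [← Finset.sum_smul] at h2
  rw [Finset.sum_eq_single (0 : A)] at h2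
  · simp only [map_zero, neg_zero, AddChar.map_zero_eq_one, Finset.sum_const, Finset.card_univ,
      D.ι_zero, map_one, Module.End.one_apply] at h2
    rcases smul_eq_zero.1 h2 with h | h
    · rw [nsmul_eq_mul, mul_one] at h
      have : (Fintype.card (A →ₗ[ZMod p] ZMod p) : ℂ) ≠ 0 := by
        exact_mod_cast Fintype.card_ne_zero
      exact this h
    · exact hw h
  · intro a _ ha
    have h3 := sum_dual (p := p) (-a) (neg_ne_zero.2 ha)
    simp only [map_neg] at h3
    rw [h3, zero_smul]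
  · intro h
    exact absurd (Finset.mem_univ _) h

end

theorem t_RY : S_RY := by
  intro p _ G A _ _ _ _ D V _ _ _ ρ hρ
  have hfinA : Finite A := Finite.of_injective D.ι D.ι_inj
  have hnt : Nontrivial V := by
    by_contra hV
    rw [not_nontrivial_iff_subsingleton] at hV
    obtain ⟨hne⟩ := hρ.toNontrivial
    obtain ⟨x, y, hxy⟩ := hne
    apply hxy
    apply Subrepresentation.toSubmodule_injective
    exact Subsingleton.elim _ _
  exact exists_eig D ρ

theorem irr_of_eig {p : ℕ} [Fact p.Prime] {G A : Type} [Group G] [AddCommGroup A]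
    [Module (ZMod p) A] (D : Dat p G A) (v : A →ₗ[ZMod p] ZMod p) (n : ℕ) :
    ∀ (V : Type) (_ : AddCommGroup V) (_ : Module ℂ V) (_ : FiniteDimensional ℂ V)
    (ρ : Representation ℂ G V), eig D ρ v ≠ ⊥ → finrank ℂ V = n →
    ∃ (V : Type) (_ : AddCommGroup V) (_ : Module ℂ V) (_ : FiniteDimensional ℂ V)
    (ρ : Representation ℂ G V), ρ.IsIrreducible ∧ eig D ρ v ≠ ⊥ := by
  induction n using Nat.strong_induction_on with
  | _ n ih =>
  intro V _ _ _ ρ hρ hn
  by_cases hirr : ρ.IsIrreducible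
  · exact ⟨V, _, _, inferInstance, ρ, hirr, hρ⟩
  obtain ⟨w, hw, hw0⟩ := (Submodule.ne_bot_iff _).1 hρ
  have hnt : Nontrivial V := ⟨w, 0, hw0⟩
  -- a proper non-trivial subrepresentation
  obtain ⟨W, hW1, hW2⟩ : ∃ W : Subrepresentation ρ, W.toSubmodule ≠ ⊥ ∧ W.toSubmodule ≠ ⊤ := by
    by_contra hcon
    push Not at hcon
    apply hirr
    refine { exists_pair_ne := ⟨⊥, ⊤, ?_⟩, eq_bot_or_eq_top := ?_ }
    · intro h
      have h2 : (⊥ : Submodule ℂ V) = ⊤ := congrArg Subrepresentation.toSubmodule h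
      exact bot_ne_top h2
    · intro W
      by_cases h : W.toSubmodule = ⊥
      · left; exact Subrepresentation.toSubmodule_injective h
      · right; exact Subrepresentation.toSubmodule_injective (hcon W h)
  by_cases hwW : w ∈ W.toSubmodule
  · refine ih (finrank ℂ W.toSubmodule) ?_ W.toSubmodule _ _ inferInstance W.toRepresentation ?_ rfl
    · rw [← hn]
      exact Submodule.finrank_lt hW2
    · rw [Submodule.ne_bot_iff]
      refine ⟨⟨w, hwW⟩, ?_, fun h => hw0 (congrArg Subtype.val h)⟩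
      intro a
      apply Subtype.ext
      exact hw a
  · have hle : ∀ g, W.toSubmodule ≤ W.toSubmodule.comap (ρ g) := fun g x hx =>
      W.apply_mem_toSubmodule g hx
    refine ih (finrank ℂ (V ⧸ W.toSubmodule)) ?_ (V ⧸ W.toSubmodule) _ _ inferInstance
      (ρ.quotient W.toSubmodule hle) ?_ rfl
    · rw [← hn]
      have h1 := Submodule.finrank_quotient_add_finrank W.toSubmodule
      have h2 : 0 < finrank ℂ W.toSubmodule := by
        have : Nontrivial W.toSubmodule := (Submodule.nontrivial_iff_ne_bot).2 hW1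
        exact Module.finrank_pos
      omega
    · rw [Submodule.ne_bot_iff]
      refine ⟨Submodule.Quotient.mk w, ?_, fun h => hwW ((Submodule.Quotient.mk_eq_zero _).1 h)⟩
      intro a
      change Submodule.Quotient.mk (ρ (D.ι a) w) = _
      rw [hw a]
      rfl

/-- the right regular representation on functions -/
noncomputable def regRep (G : Type) [Group G] : Representation ℂ G (G → ℂ) where
  toFun g := { toFun := fun f x => f (x * g), map_add' := fun _ _ => rfl, map_smul' := fun _ _ => rfl }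
  map_one' := by ext; simp
  map_mul' g h := by
    ext f x
    simp [mul_assoc]

theorem t_RX : S_RX := by
  intro p _ G A _ _ _ _ D v
  classical
  have hfinA : Finite A := Finite.of_injective D.ι D.ι_inj
  let _ : Fintype A := Fintype.ofFinite A
  refine irr_of_eig D v _ (G → ℂ) _ _ inferInstance (regRep G) ?_ rfl
  rw [Submodule.ne_bot_iff]
  refine ⟨proj D (regRep G) v (Pi.single 1 1), proj_mem D (regRep G) v _, ?_⟩
  intro h
  have h1 := congrFun h 1
  unfold proj at h1
  rw [Finset.sum_apply, Finset.sum_eq_single (0 : A)] at h1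
  · simp [regRep] at h1
  · intro a _ ha
    have h2 : (D.ι a) ≠ 1 := fun h => ha (D.ι_inj (by rw [h, D.ι_zero]))
    simp [regRep, h2]
  · intro h
    exact absurd (Finset.mem_univ _) h

end H9.EA
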