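import Pool.Agent.H2.EA.Stm

/-! # EA crew: part TW (linear characters separate `G/G'`) -/

set_option autoImplicit false

namespace H9.EA
open H2.EA

theorem t_TW : S_TW := by
  intro G _ _ z hz
  have hne : (Abelianization.of z : Abelianization G) ≠ 1 := by
    intro h
    apply hz
    have : z ∈ (Abelianization.of : G →* Abelianization G).ker := h
    rwa [Abelianization.ker_of] at this
  have : Finite (Abelianization G) := Quotient.finite _
  have : NeZero ((Monoid.exponent (Abelianization G) : ℕ) : ℂ) :=
    ⟨by exact_mod_cast Monoid.exponent_ne_zero_of_finite⟩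
  obtain ⟨φ, hφ⟩ := CommGroup.exists_apply_ne_one_of_hasEnoughRootsOfUnity
    (Abelianization G) ℂ hne
  exact ⟨φ.comp Abelianization.of, hφ⟩

end H9.EA
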