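import Pool.Agent.H2.EA.Stm

/-! # EA crew: part ZG -/

set_option autoImplicit false

open Finset Module

namespace H9.EA
open H2.EA

section
variable {p : ℕ} [Fact p.Prime] {G A : Type} [Group G] [AddCommGroup A] [Module (ZMod p) A]
  (D : Dat p G A)

theorem act_mem_Z (K : Subgroup G) (n : ℕ) (g : G) : ∀ a ∈ D.Z K n, D.act g a ∈ D.Z K n := by
  induction n with
  | zero =>
    intro a ha
    rw [D.mem_Z_zero] at ha ⊢
    rw [ha, map_zero]
  | succ n ih =>
    intro a ha
    rw [D.mem_Z_succ] at ha ⊢
    intro k hk
    have h1 : D.N k (D.act g a) = D.act g (D.N k a) := by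
      have h2 : D.N k * D.act g = D.act g * D.N k := by
        unfold Dat.N
        rw [sub_mul, mul_sub, D.act_comm, one_mul, mul_one]
      exact congrArg (fun f : Module.End (ZMod p) A => f a) h2
    rw [h1]
    exact ih _ (ha k hk)

theorem Z_le_succ (K : Subgroup G) (n : ℕ) : D.Z K n ≤ D.Z K (n + 1) := by
  induction n with
  | zero =>
    intro a ha
    rw [D.mem_Z_zero] at ha
    rw [ha]; exact zero_mem _
  | succ n ih =>
    intro a ha
    rw [D.mem_Z_succ] at ha ⊢
    intro k hk
    exact ih (ha k hk)

end

theorem t_ZG : S_ZG := by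
  intro p hp G A _ _ _ _ D hG K
  have hfinA : Finite A := Finite.of_injective D.ι D.ι_inj
  have key : ∀ n, D.Z K n ≠ ⊤ → D.Z K n ≠ D.Z K (n + 1) := by
    intro n hn heq
    let Q := A ⧸ D.Z K n
    have hfinQ : Finite Q := Quotient.finite _
    have hnt : Nontrivial Q := Submodule.Quotient.nontrivial_iff.2 hn
    let _ : MulAction K Q :=
      { smul := fun k q => Submodule.mapQ (D.Z K n) (D.Z K n) (D.act (k : G))
          (fun a ha => act_mem_Z D K n k a ha) q
        one_smul := by
          intro q
          induction q using Submodule.Quotient.induction_on with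
          | _ a =>
          change Submodule.Quotient.mk (D.act ((1 : K) : G) a) = _
          rw [show ((1 : K) : G) = 1 from rfl, map_one]
          rfl
        mul_smul := by
          intro k l q
          induction q using Submodule.Quotient.induction_on with
          | _ a =>
          change Submodule.Quotient.mk (D.act ((k * l : K) : G) a) =
            Submodule.Quotient.mk (D.act (k : G) (D.act (l : G) a))
          rw [show ((k * l : K) : G) = (k : G) * (l : G) from rfl, map_mul]
          rfl }
    have hK : IsPGroup p K := hG.to_subgroup K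
    have hdvd : p ∣ Nat.card Q := by
      let _ : Fintype Q := Fintype.ofFinite Q
      have h2 := Module.natCard_eq_pow_finrank (K := ZMod p) (V := Q)
      rw [h2, Nat.card_zmod]
      exact dvd_pow_self p (Module.finrank_pos).ne'
    have h0 : (0 : Q) ∈ MulAction.fixedPoints K Q := by
      intro k
      change Submodule.mapQ (D.Z K n) (D.Z K n) (D.act (k : G)) _ 0 = 0
      exact map_zero _
    obtain ⟨b, hb, hb0⟩ := hK.exists_fixed_point_of_prime_dvd_card_of_fixed_point Q hdvd h0
    obtain ⟨a, rfl⟩ := Submodule.Quotient.mk_surjective _ b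
    have ha : a ∈ D.Z K (n + 1) := by
      rw [D.mem_Z_succ]
      intro k hk
      have h3 := hb ⟨k, hk⟩
      change Submodule.Quotient.mk (D.act k a) = _ at h3
      have h4 := (Submodule.Quotient.eq _).1 h3
      exact h4
    rw [← heq] at ha
    exact hb0 ((Submodule.Quotient.mk_eq_zero _).2 ha).symm
  refine ⟨?_, key⟩
  by_contra hcon
  push Not at hcon
  have hlt : ∀ n, D.Z K n < D.Z K (n + 1) := fun n =>
    lt_of_le_of_ne (Z_le_succ D K n) (key n (hcon n))
  have hmono : StrictMono (fun n => D.Z K n) := strictMono_nat_of_lt_succ hlt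
  have hfinS : Finite (Submodule (ZMod p) A) :=
    Finite.of_injective (fun S : Submodule (ZMod p) A => (S : Set A)) SetLike.coe_injective
  exact not_injective_infinite_finite _ hmono.injective

end H9.EA
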